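import Mathlib
import Pool.Agent.H79.Gin

set_option autoImplicit false

open MvPolynomial Pool.Agent.H79.Gin in
theorem Pool.Agent.Results.MP_48c274_ag.NotLex.result (k : Type*) [Field k] :
    ∃ P : MvPolynomial (Σ i : Fin 3, Mon 4 (![2, 2, 4] i)) k, P ≠ 0 ∧
      ∀ a : (Σ i : Fin 3, Mon 4 (![2, 2, 4] i)) → k, eval a P ≠ 0 →
        ¬ IsLexSegment (lexInitial (Ideal.span (Set.range (form ![2, 2, 4] a)))) :=
  main k
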